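import Pool.Agent.V8H16.TD.Minor

set_option autoImplicit false
set_option linter.unusedSectionVars false
set_option synthInstance.maxHeartbeats 400000
set_option synthInstance.maxSize 2048

/-!
# Degrees modulo two
-/

namespace Pool.Agent.V8H16.TD

open Finset Pool.Agent.TH362.TF Pool.Agent.TH362.TF.Four Pool.Agent.R890.FF Pool.Agent.V8H16.TC

variable {V E : Type} [Fintype V] [DecidableEq V] [Fintype E] [DecidableEq E]

open Classical in
theorem degree_cast (s t : E → V) (Y : Set E) (v : V) :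
    ((TH362.Multi.degree s t Y v : ℕ) : ZMod 2) =
      ∑ e : E, ((if s e = v then (if e ∈ Y then (1 : ZMod 2) else 0) else 0) +
        (if t e = v then (if e ∈ Y then (1 : ZMod 2) else 0) else 0)) := by
  have key : ∀ r : E → V, (({e | e ∈ Y ∧ r e = v}.ncard : ℕ) : ZMod 2) =
      ∑ e : E, (if r e = v then (if e ∈ Y then (1 : ZMod 2) else 0) else 0) := by
    intro r
    have h1 : {e | e ∈ Y ∧ r e = v} = ((univ.filter (fun e => e ∈ Y ∧ r e = v) : Finset E) : Set E) := by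
      ext e
      simp
    rw [h1, Set.ncard_coe_finset, Finset.card_filter]
    push_cast
    refine sum_congr rfl fun e _ => ?_
    by_cases h2 : r e = v <;> by_cases h3 : e ∈ Y <;> simp [h2, h3]
  unfold TH362.Multi.degree
  push_cast
  rw [key s, key t, sum_add_distrib]

open Classical in
theorem even_cast {s t : E → V} {Y : Set E} {v : V} (h : Even (TH362.Multi.degree s t Y v)) :
    ∑ e : E, ((if s e = v then (if e ∈ Y then (1 : ZMod 2) else 0) else 0) +
        (if t e = v then (if e ∈ Y then (1 : ZMod 2) else 0) else 0)) = 0 := by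
  rw [← degree_cast]
  exact (ZMod.natCast_eq_zero_iff_even).2 h

/-- the hypotheses in terms of edge sets -/
theorem hyp_of {s t : E → V} {p q : ℕ} {c d : ℕ → V} {f g : ℕ → E} {Y₁ Y₂ : Set E}
    (hc : Circ s t p c f) (hd : Circ s t q d g) (hcd : ∀ i < p, ∀ j < q, c i ≠ d j)
    (hY : ∀ e, e ∈ Y₁ ∪ Y₂ ↔ (∀ i < p, e ≠ f i) ∧ ∀ j < q, e ≠ g j)
    (h2 : TH362.Multi.IsCycle s t Y₂)
    (h1 : ∀ v, (∀ i < p, v ≠ c i) → (∀ j < q, v ≠ d j) → Even (TH362.Multi.degree s t Y₁ v))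
    (hC : ∀ i < p, (∃ j < q, ∃ e, Ends s t (c i) (d j) e) ∨
      ∀ e ∈ Y₁ ∪ Y₂, s e ≠ t e → s e ≠ c i ∧ t e ≠ c i)
    (hD : ∀ j < q, (∃ i < p, ∃ e, Ends s t (c i) (d j) e) ∨
      ∀ e ∈ Y₁ ∪ Y₂, s e ≠ t e → s e ≠ d j ∧ t e ≠ d j)
    (h3 : ∃ i < p, ∃ j < q, ∃ i' < p, ∃ j' < q, (i ≠ i' ∨ j ≠ j') ∧
      (∃ e, Ends s t (c i) (d j) e) ∧ ∃ e, Ends s t (c i') (d j') e)
    (np : NoPent (Sr s t p q c d)) : ∃ y, Hyp s t p q c d f g y := by
  classical
  have hR : ∀ e, e ∈ Rst p q f g ↔ e ∈ Y₁ ∪ Y₂ := by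
    intro e
    rw [hY]
    unfold Rst
    rw [mem_sdiff, mem_union, mem_image, mem_image]
    constructor
    · rintro ⟨-, h⟩
      exact ⟨fun i hi he => h (Or.inl ⟨i, mem_range.2 hi, he.symm⟩),
        fun i hi he => h (Or.inr ⟨i, mem_range.2 hi, he.symm⟩)⟩
    · rintro ⟨h4, h5⟩
      refine ⟨mem_univ _, ?_⟩
      rintro (⟨i, hi, he⟩ | ⟨i, hi, he⟩)
      · exact h4 i (mem_range.1 hi) he.symm
      · exact h5 i (mem_range.1 hi) he.symm
  set y : E → F := fun e => if e ∈ Y₁ ∪ Y₂ then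
    ((if e ∈ Y₁ then 1 else 0), (if e ∈ Y₂ then 1 else 0)) else (1, 0) with hy
  have hy1 : ∀ e ∈ Rst p q f g, y e =
      ((if e ∈ Y₁ then 1 else 0), (if e ∈ Y₂ then 1 else 0)) := by
    intro e he
    simp only [hy]
    rw [if_pos ((hR e).1 he)]
  have hB1 : ∀ v, (B s t (Rst p q f g) y v).1 =
      ∑ e : E, ((if s e = v then (if e ∈ Y₁ then (1 : ZMod 2) else 0) else 0) +
        (if t e = v then (if e ∈ Y₁ then (1 : ZMod 2) else 0) else 0)) := by
    intro v
    unfold B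
    rw [Prod.fst_sum]
    rw [← sum_subset (subset_univ (Rst p q f g))]
    · refine sum_congr rfl fun e he => ?_
      rw [hy1 e he]
      split_ifs <;> simp
    · intro e _ he
      have : e ∉ Y₁ := fun h => he ((hR e).2 (Or.inl h))
      simp [this]
  have hB2 : ∀ v, (B s t (Rst p q f g) y v).2 =
      ∑ e : E, ((if s e = v then (if e ∈ Y₂ then (1 : ZMod 2) else 0) else 0) +
        (if t e = v then (if e ∈ Y₂ then (1 : ZMod 2) else 0) else 0)) := by
    intro v
    unfold B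
    rw [Prod.snd_sum]
    rw [← sum_subset (subset_univ (Rst p q f g))]
    · refine sum_congr rfl fun e he => ?_
      rw [hy1 e he]
      split_ifs <;> simp
    · intro e _ he
      have : e ∉ Y₂ := fun h => he ((hR e).2 (Or.inr h))
      simp [this]
  refine ⟨y, ⟨hc, hd, hcd, ?_, ?_, ?_⟩, ?_, ?_, ?_, np⟩
  · intro e
    simp only [hy]
    by_cases h4 : e ∈ Y₁ <;> by_cases h5 : e ∈ Y₂ <;> simp [h4, h5]
  · intro v
    rw [hB2]
    exact even_cast (h2 v)
  · intro v h4 h5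
    unfold N
    rw [hB1]
    exact even_cast (h1 v (fun i hi he => h4 i hi he.symm) (fun i hi he => h5 i hi he.symm))
  · intro i hi
    rcases hC i hi with ⟨j, hj, e, he⟩ | h4
    · exact Or.inl ⟨j, hi, hj, e, he⟩
    · exact Or.inr fun e he => h4 e ((hR e).1 he)
  · intro j hj
    rcases hD j hj with ⟨i, hi, e, he⟩ | h4
    · exact Or.inl ⟨i, hi, hj, e, he⟩
    · exact Or.inr fun e he => h4 e ((hR e).1 he)
  · obtain ⟨i, hi, j, hj, i', hi', j', hj', h4, h5, h6⟩ := h3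
    exact ⟨i, j, i', j', ⟨hi, hj, h5⟩, ⟨hi', hj', h6⟩, h4⟩

/-- two cycles give a flow -/
theorem nz_of_two {s t : E → V} {C₁ C₂ : Set E} (h1 : TH362.Multi.IsCycle s t C₁)
    (h2 : TH362.Multi.IsCycle s t C₂) (h3 : C₁ ∪ C₂ = Set.univ) : NZ s t univ := by
  classical
  refine ⟨fun e => ((if e ∈ C₁ then 1 else 0), (if e ∈ C₂ then 1 else 0)), ?_, ?_⟩
  · intro e _ he
    have h4 : e ∈ C₁ ∪ C₂ := by
      rw [h3]
      trivial
    have h5 := congrArg Prod.fst he
    have h6 := congrArg Prod.snd he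
    rcases h4 with h4 | h4
    · simp [h4] at h5
    · simp [h4] at h6
  · intro v
    unfold Cons
    ext
    · rw [Prod.fst_sum]
      refine Eq.trans (sum_congr rfl fun e _ => ?_) (even_cast (h1 v))
      by_cases a : s e = v <;> by_cases b : t e = v <;> by_cases c : e ∈ C₁ <;> simp [a, b, c]
    · rw [Prod.snd_sum]
      refine Eq.trans (sum_congr rfl fun e _ => ?_) (even_cast (h2 v))
      by_cases a : s e = v <;> by_cases b : t e = v <;> by_cases c : e ∈ C₂ <;> simp [a, b, c]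

end Pool.Agent.V8H16.TD
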