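import Pool.Agent.V8H16.TD.Flow

set_option autoImplicit false
set_option linter.unusedSectionVars false
set_option synthInstance.maxHeartbeats 400000
set_option synthInstance.maxSize 2048

/-!
# Close pairs of edges between two circuits
-/

namespace Pool.Agent.V8H16.TD

open Finset Pool.Agent.TH362.TF Pool.Agent.TH362.TF.Four Pool.Agent.R890.FF Pool.Agent.V8H16.TC

variable {V E : Type} [Fintype V] [DecidableEq V] [Fintype E] [DecidableEq E]
variable {s t : E → V} {p q : ℕ} {c d : ℕ → V} {f g : ℕ → E} {y : E → F}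

theorem Circ.adj (h : Circ s t p c f) {i j : ℕ} (hi : i < p) (hj : j < p) (hij : i ≠ j)
    (hn : nd i j = 1 ∨ nd i j + 1 = p) : ∃ e, Ends s t (c i) (c j) e := by
  have key : ∀ i j, i < p → j < p → (i + 1) % p = j → ∃ e, Ends s t (c i) (c j) e := by
    intro i j hi hj he
    have := h.hf i hi
    rw [he] at this
    exact ⟨_, this⟩
  have sym : ∀ i j, (∃ e, Ends s t (c i) (c j) e) → ∃ e, Ends s t (c j) (c i) e := by
    rintro i j ⟨e, he⟩
    exact ⟨e, he.symm⟩
  unfold nd at hn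
  rcases Nat.lt_or_ge i j with h1 | h1
  · rcases hn with h2 | h2
    · exact key i j hi hj (by rw [Nat.mod_eq_of_lt (by omega)]; omega)
    · refine sym _ _ (key j i hj hi ?_)
      have h3 : j + 1 = p := by omega
      rw [h3, Nat.mod_self]
      omega
  · rcases hn with h2 | h2
    · exact sym _ _ (key j i hj hi (by rw [Nat.mod_eq_of_lt (by omega)]; omega))
    · refine key i j hi hj ?_
      have h3 : i + 1 = p := by omega
      rw [h3, Nat.mod_self]
      omega

theorem Circ.two (h : Circ s t p c f) {i j : ℕ} (hi : i < p) (hj : j < p) (hij : i ≠ j)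
    (hn : nd i j = 2 ∨ nd i j + 2 = p) : ∃ m < p, m ≠ i ∧ m ≠ j ∧
      (∃ e, Ends s t (c i) (c m) e) ∧ ∃ e, Ends s t (c m) (c j) e := by
  have key : ∃ m < p, m ≠ i ∧ m ≠ j ∧ (nd i m = 1 ∨ nd i m + 1 = p) ∧
      (nd m j = 1 ∨ nd m j + 1 = p) := by
    unfold nd at *
    rcases Nat.lt_or_ge i j with h1 | h1
    · rcases hn with h2 | h2
      · exact ⟨i + 1, by omega, by omega, by omega, by omega, by omega⟩
      · rcases Nat.eq_zero_or_pos i with h3 | h3
        · exact ⟨p - 1, by omega, by omega, by omega, by omega, by omega⟩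
        · exact ⟨0, by omega, by omega, by omega, by omega, by omega⟩
    · rcases hn with h2 | h2
      · exact ⟨j + 1, by omega, by omega, by omega, by omega, by omega⟩
      · rcases Nat.eq_zero_or_pos j with h3 | h3
        · exact ⟨p - 1, by omega, by omega, by omega, by omega, by omega⟩
        · exact ⟨0, by omega, by omega, by omega, by omega, by omega⟩
  obtain ⟨m, m1, m2, m3, m4, m5⟩ := key
  exact ⟨m, m1, m2, m3, h.adj hi m1 (Ne.symm m2) m4, h.adj m1 hj m3 m5⟩

theorem Rst_swap (p q : ℕ) (f g : ℕ → E) : Rst q p g f = Rst p q f g := by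
  unfold Rst
  rw [union_comm]

theorem N_swap (s t : E → V) (p q : ℕ) (f g : ℕ → E) (y : E → F) (v : V) :
    N s t q p g f y v = N s t p q f g y v := by
  unfold N
  rw [Rst_swap]

theorem Two.swap (h : Two s t p q c d f g y) : Two s t q p d c g f y := by
  refine ⟨h.hd, h.hc, fun i hi j hj he => h.dis j hj i hi he.symm, h.y0, fun v => ?_,
    fun v h1 h2 => ?_⟩
  · rw [Rst_swap]
    exact h.sn v
  · rw [N_swap]
    exact h.ev v h2 h1

/-- two edges with the same end -/
theorem Two.close1 (h : Two s t p q c d f g y) {i x z : ℕ} {e1 e2 : E} (hi : i < p) (hx : x < q)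
    (hy : z < q) (E1 : Ends s t (c i) (d x) e1) (E2 : Ends s t (c i) (d z) e2) (hxy : x ≠ z)
    (hd : nd x z ≤ 2 ∨ q ≤ nd x z + 2) : NZ s t univ := by
  have hn0 : 1 ≤ nd x z ∧ nd x z + 1 ≤ q := by
    unfold nd
    omega
  have n1 := h.dis i hi x hx
  have n2 := h.dis i hi z hy
  have n3 : d x ≠ d z := fun he => hxy (h.hd.cinj _ hx _ hy he)
  by_cases h1 : nd x z = 1 ∨ nd x z + 1 = q
  · obtain ⟨e, he⟩ := h.hd.adj hx hy hxy h1
    exact con_three s t univ (mem_univ _) (mem_univ _) (mem_univ _) E1 he E2.symm n1 n2 n3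
      (h.merge hi hx (by simp) (by simp))
  · obtain ⟨m, m1, m2, m3, ⟨e, he⟩, ⟨e', he'⟩⟩ := h.hd.two hx hy hxy (by omega)
    exact con_four s t univ (mem_univ _) (mem_univ _) (mem_univ _) (mem_univ _) E1 he he'
      E2.symm n1 (h.dis i hi m m1) n2 (fun he => m2 (h.hd.cinj _ hx _ m1 he).symm) n3
      (fun he => m3 (h.hd.cinj _ m1 _ hy he)) (h.merge hi hx (by simp) (by simp))

theorem Two.close (h : Two s t p q c d f g y) {i j x z : ℕ} {e1 e2 : E} (hi : i < p) (hj : j < p)
    (hx : x < q) (hy : z < q) (E1 : Ends s t (c i) (d x) e1) (E2 : Ends s t (c j) (d z) e2)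
    (hne : i ≠ j ∨ x ≠ z) (hd : nd i j + nd x z ≤ 2 ∨ (p - nd i j) + nd x z ≤ 2 ∨
      nd i j + (q - nd x z) ≤ 2 ∨ (p - nd i j) + (q - nd x z) ≤ 2) : NZ s t univ := by
  by_cases h1 : i = j
  · subst h1
    have h2 : x ≠ z := by
      rcases hne with h | h
      · exact absurd rfl h
      · exact h
    refine h.close1 hi hx hy E1 E2 h2 ?_
    have : nd i i = 0 := by unfold nd; omega
    omega
  · by_cases h2 : x = z
    · subst h2
      refine h.swap.close1 hx hi hj E1.symm E2.symm h1 ?_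
      have : nd x x = 0 := by unfold nd; omega
      omega
    · have h3 : 1 ≤ nd x z ∧ nd x z + 1 ≤ q := by
        unfold nd
        omega
      have h4 : 1 ≤ nd i j ∧ nd i j + 1 ≤ p := by
        unfold nd
        omega
      obtain ⟨e, he⟩ := h.hc.adj hi hj h1 (by omega)
      obtain ⟨e', he'⟩ := h.hd.adj hy hx (Ne.symm h2) (by unfold nd at *; omega)
      exact con_four s t univ (mem_univ _) (mem_univ _) (mem_univ _) (mem_univ _) he E2 he'
        E1.symm (fun he => h1 (h.hc.cinj _ hi _ hj he)) (h.dis _ hi _ hy) (h.dis _ hi _ hx)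
        (h.dis _ hj _ hy) (h.dis _ hj _ hx) (fun he => h2 (h.hd.cinj _ hy _ hx he).symm)
        (h.merge hi hx (by simp) (by simp))

/-- the edges between the circuits -/
def Sr (s t : E → V) (p q : ℕ) (c d : ℕ → V) (i x : ℕ) : Prop :=
  i < p ∧ x < q ∧ ∃ e, Ends s t (c i) (d x) e

/-- there is no pentagram of edges between the circuits -/
def NoPent (S : ℕ → ℕ → Prop) : Prop :=
  ∀ r1 r2 r3 r4 r5 x1 x2 x3 x4 x5, S r1 x1 → S r2 x2 → S r3 x3 → S r4 x4 → S r5 x5 →
    r1 < r2 → r2 < r3 → r3 < r4 → r4 < r5 → ¬ star5 x1 x2 x3 x4 x5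

/-- the case in which all vertices of the circuits are used -/
theorem Two.core (h : Two s t p q c d f g y)
    (hr : ∀ i < p, ∃ x, Sr s t p q c d i x) (hs : ∀ x < q, ∃ i, Sr s t p q c d i x)
    (h2 : 2 ≤ p ∨ 2 ≤ q) (np : NoPent (Sr s t p q c d)) : NZ s t univ := by
  obtain ⟨i, x, j, z, ⟨h1, h2, e1, h3⟩, ⟨h4, h5, e2, h6⟩, h7, h8⟩ :=
    comb h.hc.pos h.hd.pos h2 (fun i x hx => ⟨hx.1, hx.2.1⟩) hr hs np
  exact h.close h1 h4 h2 h5 h3 h6 h7 h8

end Pool.Agent.V8H16.TD
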