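import Pool.Agent.R890.FF.Kem
import Pool.Agent.TH362.TF.Cyc
import Pool.Agent.V8H16.TC.Cyc

set_option autoImplicit false
set_option linter.unusedSectionVars false
set_option synthInstance.maxHeartbeats 400000
set_option synthInstance.maxSize 2048

/-!
# Flows of graphs with two disjoint circuits, in which all other vertices have even degrees
-/

namespace Pool.Agent.V8H16.TD

open Finset Pool.Agent.TH362.TF Pool.Agent.TH362.TF.Four Pool.Agent.R890.FF Pool.Agent.V8H16.TC

variable {V E : Type} [Fintype V] [DecidableEq V] [Fintype E] [DecidableEq E]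

/-- the vertices `c 0, ..., c (p - 1)` and the edges `f 0, ..., f (p - 1)` of a circuit -/
structure Circ (s t : E → V) (p : ℕ) (c : ℕ → V) (f : ℕ → E) : Prop where
  pos : 0 < p
  cinj : ∀ i < p, ∀ j < p, c i = c j → i = j
  finj : ∀ i < p, ∀ j < p, f i = f j → i = j
  hf : ∀ i < p, Ends s t (c i) (c ((i + 1) % p)) (f i)

/-- the edges which are not on the circuits -/
def Rst (p q : ℕ) (f g : ℕ → E) : Finset E := univ \ ((range p).image f ∪ (range q).image g)

/-- the sum of the first coordinates at a vertex -/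
def N (s t : E → V) (p q : ℕ) (f g : ℕ → E) (y : E → F) (v : V) : ZMod 2 :=
  (B s t (Rst p q f g) y v).1

/-- two disjoint circuits, and values `y` for the other edges with the sum zero at the vertices
outside of the circuits, and with the sum `0` or `(1, 0)` on the circuits -/
structure Two (s t : E → V) (p q : ℕ) (c d : ℕ → V) (f g : ℕ → E) (y : E → F) : Prop where
  hc : Circ s t p c f
  hd : Circ s t q d g
  dis : ∀ i < p, ∀ j < q, c i ≠ d j
  y0 : ∀ e, y e ≠ 0
  sn : ∀ v, (B s t (Rst p q f g) y v).2 = 0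
  ev : ∀ v, (∀ i < p, c i ≠ v) → (∀ j < q, d j ≠ v) → N s t p q f g y v = 0

theorem sum_shift {M : Type} [AddCommMonoid M] {p : ℕ} (hp : 0 < p) (u : ℕ → M) :
    ∑ i ∈ range p, u ((i + 1) % p) = ∑ i ∈ range p, u i := by
  obtain ⟨n, rfl⟩ : ∃ n, p = n + 1 := ⟨p - 1, by omega⟩
  rw [Finset.sum_range_succ, Finset.sum_range_succ' (fun i => u i)]
  congr 1
  · refine sum_congr rfl fun i hi => ?_
    rw [mem_range] at hi
    rw [Nat.mod_eq_of_lt (by omega)]
  · simp

/-- the values on a circuit -/
def X (k : ℕ → ZMod 2) (i : ℕ) : F := (∑ j ∈ range (i + 1), k j, 1)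

theorem X_ne (k : ℕ → ZMod 2) (i : ℕ) : X k i ≠ 0 := by
  intro h
  have := congrArg Prod.snd h
  simp [X] at this

theorem circ_flow {s t : E → V} {p : ℕ} {c : ℕ → V} {f : ℕ → E} (h : Circ s t p c f)
    (k : ℕ → ZMod 2) (hk : ∑ i ∈ range p, k i = 0) (v : V) :
    ∑ i ∈ range p, ((if s (f i) = v then X k i else 0) + (if t (f i) = v then X k i else 0)) =
      ∑ i ∈ range p, (if c i = v then ((k i, 0) : F) else 0) := by
  have h1 : ∀ i ∈ range p, ((if s (f i) = v then X k i else 0) +
      (if t (f i) = v then X k i else 0)) = (if c i = v then X k i else 0) +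
      (if c ((i + 1) % p) = v then X k i else 0) := by
    intro i hi
    exact ends_val (h.hf i (mem_range.1 hi)) _ _
  rw [sum_congr rfl h1, sum_add_distrib]
  have hp := h.pos
  have h2 : ∑ i ∈ range p, (if c ((i + 1) % p) = v then X k i else 0) =
      ∑ i ∈ range p, (if c i = v then (if i = 0 then X k (p - 1) else X k (i - 1)) else 0) := by
    rw [← sum_shift hp (fun i => (if c i = v then (if i = 0 then X k (p - 1) else X k (i - 1))
      else 0))]
    refine sum_congr rfl fun i hi => ?_
    rw [mem_range] at hi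
    rcases Nat.lt_or_ge (i + 1) p with h3 | h3
    · rw [Nat.mod_eq_of_lt h3]
      simp
    · have h4 : i + 1 = p := by omega
      rw [h4, Nat.mod_self]
      have h5 : p - 1 = i := by omega
      simp [h5]
  rw [h2, ← sum_add_distrib]
  refine sum_congr rfl fun i hi => ?_
  by_cases h3 : c i = v
  · simp only [h3, if_true]
    by_cases h4 : i = 0
    · simp only [h4, if_true]
      have h5 : p - 1 + 1 = p := by omega
      simp only [X, h5, hk]
      simp only [Prod.mk_add_mk, Prod.mk.injEq]
      constructor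
      · simp
      · decide
    · obtain ⟨m, rfl⟩ : ∃ m, i = m + 1 := ⟨i - 1, by omega⟩
      simp only [Nat.add_sub_cancel, if_false, Nat.add_eq_zero_iff, one_ne_zero, and_false]
      simp only [X, Prod.mk_add_mk, Prod.mk.injEq]
      constructor
      · rw [sum_range_succ]
        generalize ∑ x ∈ range (m + 1), k x = a
        generalize k (m + 1) = b
        revert a b
        decide
      · decide
  · simp [h3]

theorem sum_fin {M : Type} [AddCommMonoid M] {p : ℕ} {c : ℕ → V}
    (hc : ∀ i < p, ∀ j < p, c i = c j → i = j) (m : ℕ → M) {i0 : ℕ} (h0 : i0 < p) :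
    ∑ i ∈ range p, (if c i = c i0 then m i else 0) = m i0 := by
  rw [sum_eq_single i0]
  · simp
  · intro i hi hne
    rw [mem_range] at hi
    rw [if_neg]
    intro he
    exact hne (hc i hi i0 h0 he)
  · intro hn
    exact absurd (mem_range.2 h0) hn

theorem sum_fin0 {M : Type} [AddCommMonoid M] {p : ℕ} {c : ℕ → V} {v : V}
    (hc : ∀ i < p, c i ≠ v) (m : ℕ → M) :
    ∑ i ∈ range p, (if c i = v then m i else 0) = 0 := by
  refine sum_eq_zero fun i hi => ?_
  rw [if_neg (hc i (mem_range.1 hi))]

variable {s t : E → V} {p q : ℕ} {c d : ℕ → V} {f g : ℕ → E} {y : E → F}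

theorem Two.fg (h : Two s t p q c d f g y) {i j : ℕ} (hi : i < p) (hj : j < q) : f i ≠ g j := by
  intro he
  have h1 := h.hc.hf i hi
  have h2 := h.hd.hf j hj
  rw [he] at h1
  have hp := h.hc.pos
  have hq := h.hd.pos
  rcases h1 with ⟨h3, h4⟩ | ⟨h3, h4⟩ <;> rcases h2 with ⟨h5, h6⟩ | ⟨h5, h6⟩
  · exact h.dis _ hi _ hj (h3.symm.trans h5)
  · exact h.dis _ hi _ (Nat.mod_lt _ hq) (h3.symm.trans h5)
  · exact h.dis _ (Nat.mod_lt _ hp) _ hj (h3.symm.trans h5)
  · exact h.dis _ (Nat.mod_lt _ hp) _ (Nat.mod_lt _ hq) (h3.symm.trans h5)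

theorem Two.n_zero (h : Two s t p q c d f g y) {v : V} (h1 : ∀ i < p, c i ≠ v)
    (h2 : ∀ j < q, d j ≠ v) : N s t p q f g y v = 0 := h.ev v h1 h2

theorem Two.n_sum (h : Two s t p q c d f g y) :
    ∑ i ∈ range p, N s t p q f g y (c i) = ∑ j ∈ range q, N s t p q f g y (d j) := by
  have h1 : ∑ v : V, N s t p q f g y v = 0 := by
    unfold N
    rw [← Prod.fst_sum]
    have h0 : ∑ v : V, B s t (Rst p q f g) y v = 0 := by
      unfold B
      rw [sum_comm]
      refine sum_eq_zero fun e _ => ?_
      rw [sum_add_distrib, sum_ite_eq, sum_ite_eq, if_pos (mem_univ _), if_pos (mem_univ _)]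
      exact addF _
    rw [h0]
    rfl
  have h2 : ∑ v : V, N s t p q f g y v =
      ∑ v ∈ (range p).image c ∪ (range q).image d, N s t p q f g y v := by
    symm
    refine sum_subset (subset_univ _) fun v _ hv => ?_
    rw [mem_union, mem_image, mem_image] at hv
    refine h.ev v (fun i hi he => hv (Or.inl ⟨i, mem_range.2 hi, he⟩))
      (fun i hi he => hv (Or.inr ⟨i, mem_range.2 hi, he⟩))
  rw [sum_union, sum_image, sum_image] at h2
  · rw [h1] at h2
    have key : ∀ a b : ZMod 2, 0 = a + b → a = b := by decide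
    exact key _ _ h2
  · intro i hi j hj he
    exact h.hd.cinj i (mem_range.1 hi) j (mem_range.1 hj) he
  · intro i hi j hj he
    exact h.hc.cinj i (mem_range.1 hi) j (mem_range.1 hj) he
  · rw [disjoint_left]
    intro v h3 h4
    rw [mem_image] at h3 h4
    obtain ⟨i, hi, rfl⟩ := h3
    obtain ⟨j, hj, h5⟩ := h4
    exact h.dis i (mem_range.1 hi) j (mem_range.1 hj) h5.symm

theorem add22 (a : ZMod 2) : a + a = 0 := by
  revert a
  decide

/-- values which are not zero, with the sum `0` except at two vertices -/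
theorem Two.defect (h : Two s t p q c d f g y) {i0 j0 : ℕ} (hi0 : i0 < p) (hj0 : j0 < q) :
    ∃ φ : E → F, (∀ e, φ e ≠ 0) ∧ ∀ v, B s t univ φ v =
      (if c i0 = v then ((∑ i ∈ range p, N s t p q f g y (c i), 0) : F) else 0) +
      (if d j0 = v then ((∑ i ∈ range p, N s t p q f g y (c i), 0) : F) else 0) := by
  classical
  set μ : ZMod 2 := ∑ i ∈ range p, N s t p q f g y (c i) with hμ
  set k : ℕ → ZMod 2 := fun i => N s t p q f g y (c i) + (if i = i0 then μ else 0) with hk
  set k' : ℕ → ZMod 2 := fun j => N s t p q f g y (d j) + (if j = j0 then μ else 0) with hk'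
  have hks : ∑ i ∈ range p, k i = 0 := by
    rw [hk, sum_add_distrib, ← hμ, sum_ite_eq' (range p) i0, if_pos (mem_range.2 hi0)]
    exact add22 _
  have hks' : ∑ i ∈ range q, k' i = 0 := by
    rw [hk', sum_add_distrib, ← h.n_sum, ← hμ, sum_ite_eq' (range q) j0,
      if_pos (mem_range.2 hj0)]
    exact add22 _
  set φ : E → F := fun e => if h1 : ∃ i < p, e = f i then X k h1.choose else
    if h2 : ∃ j < q, e = g j then X k' h2.choose else y e with hφ
  have φf : ∀ i < p, φ (f i) = X k i := by
    intro i hi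
    have h1 : ∃ i' < p, f i = f i' := ⟨i, hi, rfl⟩
    simp only [hφ]
    rw [dif_pos h1]
    have h2 := h1.choose_spec
    rw [h.hc.finj _ h2.1 _ hi h2.2.symm]
  have φg : ∀ j < q, φ (g j) = X k' j := by
    intro j hj
    have h1 : ∃ j' < q, g j = g j' := ⟨j, hj, rfl⟩
    have h0 : ¬ ∃ i < p, g j = f i := by
      rintro ⟨i, hi, he⟩
      exact h.fg hi hj he.symm
    simp only [hφ]
    rw [dif_neg h0, dif_pos h1]
    have h2 := h1.choose_spec
    rw [h.hd.finj _ h2.1 _ hj h2.2.symm]
  have φr : ∀ e ∈ Rst p q f g, φ e = y e := by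
    intro e he
    unfold Rst at he
    rw [mem_sdiff, mem_union, mem_image, mem_image] at he
    have h0 : ¬ ∃ i < p, e = f i := by
      rintro ⟨i, hi, h1⟩
      exact he.2 (Or.inl ⟨i, mem_range.2 hi, h1.symm⟩)
    have h1 : ¬ ∃ i < q, e = g i := by
      rintro ⟨i, hi, h1⟩
      exact he.2 (Or.inr ⟨i, mem_range.2 hi, h1.symm⟩)
    simp only [hφ]
    rw [dif_neg h0, dif_neg h1]
  refine ⟨φ, ?_, ?_⟩
  · intro e
    simp only [hφ]
    split_ifs
    · exact X_ne _ _
    · exact X_ne _ _
    · exact h.y0 e
  · intro v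
    have hB : B s t univ φ v = (∑ i ∈ range p, (if c i = v then ((k i, 0) : F) else 0) +
        ∑ j ∈ range q, (if d j = v then ((k' j, 0) : F) else 0)) + (N s t p q f g y v, 0) := by
      unfold B
      have hsub : (range p).image f ∪ (range q).image g ⊆ (univ : Finset E) := subset_univ _
      rw [← sum_sdiff hsub, add_comm]
      congr 1
      · rw [sum_union, sum_image, sum_image]
        · congr 1
          · rw [← circ_flow h.hc k hks v]
            refine sum_congr rfl fun i hi => ?_
            rw [φf i (mem_range.1 hi)]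
          · rw [← circ_flow h.hd k' hks' v]
            refine sum_congr rfl fun i hi => ?_
            rw [φg i (mem_range.1 hi)]
        · intro i hi j hj he
          exact h.hd.finj i (mem_range.1 hi) j (mem_range.1 hj) he
        · intro i hi j hj he
          exact h.hc.finj i (mem_range.1 hi) j (mem_range.1 hj) he
        · rw [disjoint_left]
          intro e h1 h2
          rw [mem_image] at h1 h2
          obtain ⟨i, hi, rfl⟩ := h1
          obtain ⟨j, hj, h3⟩ := h2
          exact h.fg (mem_range.1 hi) (mem_range.1 hj) h3.symm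
      · have h9 : ∑ e ∈ univ \ ((range p).image f ∪ (range q).image g),
            ((if s e = v then φ e else 0) + (if t e = v then φ e else 0)) =
            B s t (Rst p q f g) y v := by
          unfold B Rst
          refine sum_congr rfl fun e he => ?_
          rw [φr e he]
        rw [h9]
        exact Prod.ext rfl (h.sn v)
    rw [hB]
    by_cases h1 : ∃ i < p, c i = v
    · obtain ⟨i, hi, rfl⟩ := h1
      rw [sum_fin h.hc.cinj (fun i => ((k i, 0) : F)) hi,
        sum_fin0 (fun j hj => Ne.symm (h.dis i hi j hj)), if_neg (Ne.symm (h.dis i hi j0 hj0))]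
      simp only [hk, add_zero, Prod.mk_add_mk]
      by_cases h2 : i = i0
      · rw [h2, if_pos rfl, if_pos rfl]
        simp only [Prod.mk.injEq, and_true]
        generalize N s t p q f g y (c i0) = a
        generalize μ = b
        revert a b
        decide
      · rw [if_neg h2, if_neg (fun he => h2 (h.hc.cinj _ hi0 _ hi he).symm), add_zero, add22]
        rfl
    · by_cases h2 : ∃ j < q, d j = v
      · obtain ⟨j, hj, rfl⟩ := h2
        rw [sum_fin h.hd.cinj (fun i => ((k' i, 0) : F)) hj,
          sum_fin0 (fun i hi => h.dis i hi j hj), if_neg (h.dis i0 hi0 j hj)]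
        simp only [hk', zero_add, Prod.mk_add_mk]
        by_cases h3 : j = j0
        · rw [h3, if_pos rfl, if_pos rfl]
          simp only [Prod.mk.injEq]
          generalize N s t p q f g y (d j0) = a
          generalize μ = b
          revert a b
          decide
        · rw [if_neg h3, if_neg (fun he => h3 (h.hd.cinj _ hj0 _ hj he).symm), add_zero, add22]
          rfl
      · push Not at h1 h2
        rw [sum_fin0 h1, sum_fin0 h2, if_neg (h1 i0 hi0), if_neg (h2 j0 hj0), h.n_zero h1 h2]
        rfl

/-- flows of a graph in which a vertex of each of the two circuits is identified -/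
theorem Two.merge (h : Two s t p q c d f g y) {i0 j0 : ℕ} (hi0 : i0 < p) (hj0 : j0 < q)
    {A : Finset V} {a : V} (h1 : c i0 ∈ A) (h2 : d j0 ∈ A) :
    NZ (fun e => if s e ∈ A then a else s e) (fun e => if t e ∈ A then a else t e) univ := by
  obtain ⟨φ, h3, h4⟩ := h.defect hi0 hj0
  refine ⟨φ, fun e _ => h3 e, fun v => ?_⟩
  have h5 := B_quot s t univ φ (fun v => if v ∈ A then a else v) v
  refine Eq.trans h5 ?_
  simp only [h4]
  rw [sum_add_distrib, sum_ite_eq, sum_ite_eq]
  simp only [mem_filter, mem_univ, true_and, h1, h2, if_true]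
  exact addF _

/-- an even number of edges between the circuits -/
theorem Two.even (h : Two s t p q c d f g y) (h0 : ∑ i ∈ range p, N s t p q f g y (c i) = 0) :
    NZ s t univ := by
  obtain ⟨φ, h3, h4⟩ := h.defect h.hc.pos h.hd.pos
  refine ⟨φ, fun e _ => h3 e, fun v => ?_⟩
  refine Eq.trans (h4 v) ?_
  rw [h0]
  split_ifs <;> simp

end Pool.Agent.V8H16.TD
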