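import Pool.Agent.V8H16.TD.Close

set_option autoImplicit false
set_option linter.unusedSectionVars false
set_option synthInstance.maxHeartbeats 400000
set_option synthInstance.maxSize 2048

/-!
# Two disjoint circuits: the flow theorem
-/

namespace Pool.Agent.V8H16.TD

open Finset Pool.Agent.TH362.TF Pool.Agent.TH362.TF.Four Pool.Agent.R890.FF Pool.Agent.V8H16.TC

theorem NoPent.npc {S : ℕ → ℕ → Prop} (h : NoPent S) {r1 r2 r3 r4 r5 x1 x2 x3 x4 x5 : ℕ}
    (h1 : S r1 x1) (h2 : S r2 x2) (h3 : S r3 x3) (h4 : S r4 x4) (h5 : S r5 x5)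
    (hr : cy r1 r2 r3 r4 r5) (hs : star5 x1 x2 x3 x4 x5) : False := by
  rcases hr with ⟨a, b, c, d⟩ | ⟨a, b, c, d⟩ | ⟨a, b, c, d⟩ | ⟨a, b, c, d⟩ | ⟨a, b, c, d⟩
  · exact h _ _ _ _ _ _ _ _ _ _ h1 h2 h3 h4 h5 a b c d hs
  · exact h _ _ _ _ _ _ _ _ _ _ h2 h3 h4 h5 h1 a b c d (star5_rot hs)
  · exact h _ _ _ _ _ _ _ _ _ _ h3 h4 h5 h1 h2 a b c d (star5_rot2 hs)
  · exact h _ _ _ _ _ _ _ _ _ _ h4 h5 h1 h2 h3 a b c d (star5_rot3 hs)
  · exact h _ _ _ _ _ _ _ _ _ _ h5 h1 h2 h3 h4 a b c d (star5_rot4 hs)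

theorem NoPent.swap {S : ℕ → ℕ → Prop} (h : NoPent S) : NoPent (fun x i => S i x) := by
  intro x1 x2 x3 x4 x5 r1 r2 r3 r4 r5 h1 h2 h3 h4 h5 a b c d hs
  rcases hs with hs | hs
  · exact h.npc h1 h4 h2 h5 h3 hs (Or.inr (Or.inl ⟨a, b, c, d⟩))
  · exact h.npc h1 h3 h5 h2 h4 hs (Or.inl (Or.inl ⟨a, b, c, d⟩))

variable {V E : Type} [Fintype V] [DecidableEq V] [Fintype E] [DecidableEq E]
variable {s t : E → V} {p q : ℕ} {c d : ℕ → V} {f g : ℕ → E} {y : E → F}

theorem Sr_swap (s t : E → V) (p q : ℕ) (c d : ℕ → V) (i x : ℕ) :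
    Sr s t q p d c x i ↔ Sr s t p q c d i x := by
  unfold Sr
  constructor
  · rintro ⟨a, b, e, he⟩
    exact ⟨b, a, e, he.symm⟩
  · rintro ⟨a, b, e, he⟩
    exact ⟨b, a, e, he.symm⟩

/-- the numbers different from `i` -/
def sk (i j : ℕ) : ℕ := if j < i then j else j + 1

theorem sk_ne (i j : ℕ) : sk i j ≠ i := by
  unfold sk
  split_ifs <;> omega

theorem sk_lt {i j p : ℕ} (hj : j + 1 < p) : sk i j < p := by
  unfold sk
  split_ifs <;> omega

theorem sk_mono {i j k : ℕ} (h : j < k) : sk i j < sk i k := by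
  unfold sk
  split_ifs <;> omega

theorem sk_inj {i j k : ℕ} (h : sk i j = sk i k) : j = k := by
  unfold sk at h
  split_ifs at h <;> omega

theorem sk_surj {i j p : ℕ} (hj : j < p) (hne : j ≠ i) (hi : i < p) :
    ∃ k, k + 1 < p ∧ sk i k = j := by
  rcases Nat.lt_or_ge j i with h | h
  · refine ⟨j, by omega, ?_⟩
    unfold sk
    rw [if_pos h]
  · refine ⟨j - 1, by omega, ?_⟩
    unfold sk
    rw [if_neg (by omega)]
    omega

/-- the indices after the deletion of `i` -/
theorem sk_next {i k p : ℕ} (hi : i < p) (hk : k + 1 < p) :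
    (sk i k + 1) % p ≠ i → (sk i k + 1) % p = sk i ((k + 1) % (p - 1)) := by
  intro h1
  unfold sk at *
  by_cases h2 : k < i
  · rw [if_pos h2] at *
    rw [Nat.mod_eq_of_lt (by omega)] at *
    rw [Nat.mod_eq_of_lt (by omega), if_pos (by omega)]
  · rw [if_neg h2] at *
    rcases Nat.lt_or_ge (k + 2) p with h3 | h3
    · rw [Nat.mod_eq_of_lt (by omega), Nat.mod_eq_of_lt (by omega), if_neg (by omega)]
    · have h4 : k + 1 + 1 = p := by omega
      have h5 : k + 1 = p - 1 := by omega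
      rw [h4, Nat.mod_self] at h1
      rw [h4, Nat.mod_self, h5, Nat.mod_self, if_pos (by omega)]

theorem sk_next' {i k p : ℕ} (hi : i < p) (hk : k + 1 < p) :
    (sk i k + 1) % p = i → (i + 1) % p = sk i ((k + 1) % (p - 1)) := by
  intro h1
  unfold sk at *
  by_cases h2 : k < i
  · rw [if_pos h2] at *
    rw [Nat.mod_eq_of_lt (by omega)] at h1
    rcases Nat.lt_or_ge (i + 1) p with h3 | h3
    · rw [Nat.mod_eq_of_lt h3, Nat.mod_eq_of_lt (by omega), if_neg (by omega)]
      omega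
    · have h4 : i + 1 = p := by omega
      have h5 : k + 1 = p - 1 := by omega
      rw [h4, Nat.mod_self, h5, Nat.mod_self, if_pos (by omega)]
  · rw [if_neg h2] at *
    rcases Nat.lt_or_ge (k + 2) p with h3 | h3
    · rw [Nat.mod_eq_of_lt (by omega)] at h1
      omega
    · have h4 : k + 1 + 1 = p := by omega
      have h5 : k + 1 = p - 1 := by omega
      rw [h4, Nat.mod_self] at h1
      rw [h5, Nat.mod_self, if_neg (by omega), Nat.mod_eq_of_lt (by omega)]
      omega

/-- only loops of `R` are incident with `v` -/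
def Bare (s t : E → V) (R : Finset E) (v : V) : Prop := ∀ e ∈ R, s e ≠ t e → s e ≠ v ∧ t e ≠ v

theorem Two.rung_mem (h : Two s t p q c d f g y) {i x : ℕ} {e : E} (hi : i < p) (hx : x < q)
    (he : Ends s t (c i) (d x) e) : e ∈ Rst p q f g := by
  have key : ∀ u v u' v', Ends s t u v e → Ends s t u' v' e → (u = u' ∧ v = v') ∨
      (u = v' ∧ v = u') := by
    rintro u v u' v' (⟨a, b⟩ | ⟨a, b⟩) (⟨a', b'⟩ | ⟨a', b'⟩)
    · exact Or.inl ⟨a.symm.trans a', b.symm.trans b'⟩
    · exact Or.inr ⟨a.symm.trans a', b.symm.trans b'⟩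
    · exact Or.inr ⟨b.symm.trans b', a.symm.trans a'⟩
    · exact Or.inl ⟨b.symm.trans b', a.symm.trans a'⟩
  unfold Rst
  rw [mem_sdiff, mem_union, mem_image, mem_image]
  refine ⟨mem_univ _, ?_⟩
  rintro (⟨j, hj, rfl⟩ | ⟨j, hj, rfl⟩)
  · rw [mem_range] at hj
    rcases key _ _ _ _ he (h.hc.hf j hj) with ⟨_, b⟩ | ⟨_, b⟩
    · exact h.dis _ (Nat.mod_lt _ h.hc.pos) _ hx b.symm
    · exact h.dis _ hj _ hx b.symm
  · rw [mem_range] at hj
    rcases key _ _ _ _ he (h.hd.hf j hj) with ⟨a, _⟩ | ⟨a, _⟩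
    · exact h.dis _ hi _ hj a
    · exact h.dis _ hi _ (Nat.mod_lt _ h.hd.pos) a

theorem Two.bare_sr (h : Two s t p q c d f g y) {i : ℕ} (hb : Bare s t (Rst p q f g) (c i))
    (x : ℕ) : ¬ Sr s t p q c d i x := by
  rintro ⟨hi, hx, e, he⟩
  have h1 := h.rung_mem hi hx he
  have h2 := h.dis i hi x hx
  rcases he with ⟨a, b⟩ | ⟨a, b⟩
  · exact (hb e h1 (by rw [a, b]; exact h2)).1 a
  · exact (hb e h1 (by rw [a, b]; exact h2.symm)).2 b

theorem Two.rst_eq (h : Two s t p q c d f g y) {i : ℕ} (hi : i < p) (hp : 2 ≤ p) :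
    Rst (p - 1) q (fun j => f (sk i j)) g = insert (f i) (Rst p q f g) := by
  ext e
  unfold Rst
  simp only [mem_sdiff, mem_univ, true_and, mem_union, mem_image, mem_range, mem_insert, not_or,
    not_exists, not_and]
  constructor
  · rintro ⟨h1, h2⟩
    by_cases h3 : e = f i
    · exact Or.inl h3
    · refine Or.inr ⟨fun j hj he => ?_, h2⟩
      have h4 : j ≠ i := by
        rintro rfl
        exact h3 he.symm
      obtain ⟨k, hk, h5⟩ := sk_surj hj h4 hi
      exact h1 k (by omega) (by rw [h5]; exact he)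
  · rintro (rfl | ⟨h1, h2⟩)
    · refine ⟨fun j hj he => ?_, fun j hj he => h.fg hi hj he.symm⟩
      exact sk_ne i j (h.hc.finj _ (sk_lt (by omega)) _ hi he)
    · exact ⟨fun j hj he => h1 _ (sk_lt (by omega)) he, h2⟩

theorem next_ne {i p : ℕ} (hi : i < p) (hp : 2 ≤ p) : (i + 1) % p ≠ i := by
  intro h5
  rcases Nat.lt_or_ge (i + 1) p with h6 | h6
  · rw [Nat.mod_eq_of_lt h6] at h5
    omega
  · have h7 : i + 1 = p := by omega
    rw [h7, Nat.mod_self] at h5
    omega

section red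

variable (h : Two s t p q c d f g y) {i : ℕ} (hi : i < p) (hp : 2 ≤ p)
  (hb : Bare s t (Rst p q f g) (c i)) (κ : V → V) (k1 : κ (c i) = c ((i + 1) % p))
  (k2 : ∀ v, v ≠ c i → κ v = v)
include h hi hp hb k1 k2

theorem Two.red_B (v : V) : B (fun e => κ (s e)) (fun e => κ (t e))
    (Rst (p - 1) q (fun j => f (sk i j)) g) y v = B s t (Rst p q f g) y v := by
  have hni : f i ∉ Rst p q f g := by
    unfold Rst
    rw [mem_sdiff, mem_union, mem_image]
    intro hn
    exact hn.2 (Or.inl ⟨i, mem_range.2 hi, rfl⟩)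
  rw [h.rst_eq hi hp, B_insert _ _ _ _ hni]
  have h1 : κ (s (f i)) = κ (t (f i)) := by
    have h4 : κ (c i) = κ (c ((i + 1) % p)) := by
      rw [k1]
      refine (k2 _ fun he => next_ne hi hp (h.hc.cinj _ (Nat.mod_lt _ (by omega)) _ hi he)).symm
    rcases h.hc.hf i hi with ⟨a, b⟩ | ⟨a, b⟩
    · rw [a, b, h4]
    · rw [a, b, h4]
  rw [h1, addF, zero_add]
  unfold B
  refine sum_congr rfl fun e he => ?_
  by_cases h2 : s e = t e
  · simp only [h2]
    rw [addF, addF]
  · have h3 := hb e he h2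
    simp only [k2 _ h3.1, k2 _ h3.2]

theorem Two.red : Two (fun e => κ (s e)) (fun e => κ (t e)) (p - 1) q (fun j => c (sk i j)) d
      (fun j => f (sk i j)) g y := by
  have kc : ∀ j < p, j ≠ i → κ (c j) = c j := by
    intro j hj hne
    exact k2 _ fun he => hne (h.hc.cinj _ hj _ hi he)
  have kd : ∀ j < q, κ (d j) = d j := by
    intro j hj
    exact k2 _ (Ne.symm (h.dis i hi j hj))
  have kE : ∀ u v e, Ends s t u v e → Ends (fun e => κ (s e)) (fun e => κ (t e)) (κ u) (κ v) e := by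
    rintro u v e (⟨h1, h2⟩ | ⟨h1, h2⟩)
    · exact Or.inl ⟨by simp only [h1], by simp only [h2]⟩
    · exact Or.inr ⟨by simp only [h1], by simp only [h2]⟩
  refine ⟨⟨by omega, ?_, ?_, ?_⟩, ⟨h.hd.pos, h.hd.cinj, h.hd.finj, ?_⟩, ?_, h.y0, ?_, ?_⟩
  · intro a ha b hb he
    exact sk_inj (h.hc.cinj _ (sk_lt (by omega)) _ (sk_lt (by omega)) he)
  · intro a ha b hb he
    exact sk_inj (h.hc.finj _ (sk_lt (by omega)) _ (sk_lt (by omega)) he)
  · intro k hk
    have h1 := kE _ _ _ (h.hc.hf _ (sk_lt (i := i) (j := k) (p := p) (by omega)))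
    rw [kc _ (sk_lt (by omega)) (sk_ne _ _)] at h1
    by_cases h2 : (sk i k + 1) % p = i
    · rw [h2, k1, sk_next' hi (by omega) h2] at h1
      exact h1
    · rw [kc _ (Nat.mod_lt _ (by omega)) h2, sk_next hi (by omega) h2] at h1
      exact h1
  · intro j hj
    have h1 := kE _ _ _ (h.hd.hf j hj)
    rw [kd _ hj, kd _ (Nat.mod_lt _ h.hd.pos)] at h1
    exact h1
  · intro a ha b hb
    exact h.dis _ (sk_lt (by omega)) _ hb
  · intro v
    rw [h.red_B hi hp hb κ k1 k2]
    exact h.sn v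
  · intro v h1 h2
    unfold N
    rw [h.red_B hi hp hb κ k1 k2]
    by_cases h3 : v = c i
    · have h4 : B s t (Rst p q f g) y v = 0 := by
        unfold B
        refine sum_eq_zero fun e he => ?_
        by_cases h5 : s e = t e
        · rw [h5, addF]
        · have h6 := hb e he h5
          rw [h3, if_neg h6.1, if_neg h6.2, add_zero]
      rw [h4]
      rfl
    · refine h.ev v (fun j hj he => ?_) h2
      by_cases h4 : j = i
      · rw [h4] at he
        exact h3 he.symm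
      · obtain ⟨k, hk, h5⟩ := sk_surj hj h4 hi
        exact h1 k (by omega) (by rw [h5]; exact he)

theorem Two.red_sr {j x : ℕ}
    (h1 : Sr (fun e => κ (s e)) (fun e => κ (t e)) (p - 1) q (fun j => c (sk i j)) d j x) :
    Sr s t p q c d (sk i j) x := by
  obtain ⟨h2, h3, e, he⟩ := h1
  have hj : sk i j < p := sk_lt (by omega)
  refine ⟨hj, h3, e, ?_⟩
  have h0 := h.bare_sr hb
  -- the edge joins the two circuits
  have hdx : ∀ v, κ v = d x → v = d x := by
    intro v hv
    by_cases h4 : v = c i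
    · rw [h4, k1] at hv
      exact absurd hv (h.dis _ (Nat.mod_lt _ (by omega)) x h3)
    · rw [k2 v h4] at hv
      exact hv
  have hne : ∀ u v, Ends s t u v e → u = c i → v = d x → False := by
    intro u v h5 h6 h7
    rw [h6, h7] at h5
    exact h0 x ⟨hi, h3, e, h5⟩
  rcases he with ⟨h5, h6⟩ | ⟨h5, h6⟩
  · have h7 := hdx _ h6
    have h8 : s e ≠ c i := fun h8 => hne _ _ (Or.inl ⟨rfl, rfl⟩) h8 h7
    simp only at h5
    rw [k2 _ h8] at h5
    exact Or.inl ⟨h5, h7⟩
  · have h7 := hdx _ h5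
    have h8 : t e ≠ c i := fun h8 => hne _ _ (Or.inr ⟨rfl, rfl⟩) h8 h7
    simp only at h6
    rw [k2 _ h8] at h6
    exact Or.inr ⟨h7, h6⟩

theorem Two.sr_red {j x : ℕ} (hj : j + 1 < p) (h1 : Sr s t p q c d (sk i j) x) :
    Sr (fun e => κ (s e)) (fun e => κ (t e)) (p - 1) q (fun j => c (sk i j)) d j x := by
  obtain ⟨h2, h3, e, he⟩ := h1
  refine ⟨by omega, h3, e, ?_⟩
  have h4 : κ (c (sk i j)) = c (sk i j) :=
    k2 _ fun he => sk_ne i j (h.hc.cinj _ h2 _ hi he)
  have h5 : κ (d x) = d x := k2 _ (Ne.symm (h.dis i hi x h3))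
  rcases he with ⟨a, b⟩ | ⟨a, b⟩
  · exact Or.inl ⟨by simp only [a, h4], by simp only [b, h5]⟩
  · exact Or.inr ⟨by simp only [a, h5], by simp only [b, h4]⟩

theorem Two.bare_red {v : V} (hv : Bare s t (Rst p q f g) v) :
    Bare (fun e => κ (s e)) (fun e => κ (t e)) (Rst (p - 1) q (fun j => f (sk i j)) g) v := by
  intro e he hne
  rw [h.rst_eq hi hp, mem_insert] at he
  rcases he with rfl | he
  · exfalso
    apply hne
    have h4 : κ (c i) = κ (c ((i + 1) % p)) := by
      rw [k1]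
      refine (k2 _ fun he => next_ne hi hp (h.hc.cinj _ (Nat.mod_lt _ (by omega)) _ hi he)).symm
    rcases h.hc.hf i hi with ⟨a, b⟩ | ⟨a, b⟩
    · simp only [a, b, h4]
    · simp only [a, b, h4]
  · have h2 : s e ≠ t e := fun h2 => hne (by simp only [h2])
    have h3 := hb e he h2
    have h4 := hv e he h2
    simp only [k2 _ h3.1, k2 _ h3.2]
    exact h4

end red

/-- the two edges at a vertex which is not used -/
theorem Two.cut_eq (h : Two s t p q c d f g y) {i : ℕ} (hi : i < p) (hp : 2 ≤ p)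
    (hb : Bare s t (Rst p q f g) (c i)) : ∃ i' < p, i' ≠ i ∧
    cut s t univ (fun u => decide (u = c i)) = {f i, f i'} := by
  have hprev : ∃ i' < p, i' ≠ i ∧ (i' + 1) % p = i := by
    rcases Nat.eq_zero_or_pos i with h1 | h1
    · refine ⟨p - 1, by omega, by omega, ?_⟩
      have : p - 1 + 1 = p := by omega
      rw [this, Nat.mod_self, h1]
    · refine ⟨i - 1, by omega, by omega, ?_⟩
      have : i - 1 + 1 = i := by omega
      rw [this, Nat.mod_eq_of_lt hi]
  obtain ⟨i', h1, h2, h3⟩ := hprev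
  have hnext := next_ne hi hp
  refine ⟨i', h1, h2, ?_⟩
  have hmod : ∀ j, (j + 1) % p < p := fun j => Nat.mod_lt _ (by omega)
  ext e
  unfold cut
  rw [mem_filter, mem_insert, mem_singleton]
  constructor
  · rintro ⟨-, h4⟩
    by_cases h5 : ∃ j < p, e = f j
    · obtain ⟨j, hj, h5⟩ := h5
      by_cases h6 : j = i
      · left
        rw [h5, h6]
      · by_cases h7 : (j + 1) % p = i
        · right
          rw [h5]
          congr 1
          rcases Nat.lt_or_ge (j + 1) p with h8 | h8 <;> rcases Nat.lt_or_ge (i' + 1) p with h9 | h9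
          · rw [Nat.mod_eq_of_lt h8] at h7
            rw [Nat.mod_eq_of_lt h9] at h3
            omega
          · have h10 : i' + 1 = p := by omega
            rw [Nat.mod_eq_of_lt h8] at h7
            rw [h10, Nat.mod_self] at h3
            omega
          · have h10 : j + 1 = p := by omega
            rw [Nat.mod_eq_of_lt h9] at h3
            rw [h10, Nat.mod_self] at h7
            omega
          · omega
        · exfalso
          have h8 := h.hc.hf j hj
          rw [← h5] at h8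
          have h9 : c j ≠ c i := fun he => h6 (h.hc.cinj _ hj _ hi he)
          have h10 : c ((j + 1) % p) ≠ c i := fun he => h7 (h.hc.cinj _ (hmod j) _ hi he)
          rcases h8 with ⟨a, b⟩ | ⟨a, b⟩ <;> rw [a, b] at h4 <;> simp [h9, h10] at h4
    · exfalso
      by_cases h6 : ∃ j < q, e = g j
      · obtain ⟨j, hj, h5⟩ := h6
        have h8 := h.hd.hf j hj
        rw [← h5] at h8
        have h9 : d j ≠ c i := Ne.symm (h.dis i hi j hj)
        have h10 : d ((j + 1) % q) ≠ c i := Ne.symm (h.dis i hi _ (Nat.mod_lt _ h.hd.pos))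
        rcases h8 with ⟨a, b⟩ | ⟨a, b⟩ <;> rw [a, b] at h4 <;> simp [h9, h10] at h4
      · have he : e ∈ Rst p q f g := by
          unfold Rst
          rw [mem_sdiff, mem_union, mem_image, mem_image]
          refine ⟨mem_univ _, ?_⟩
          rintro (⟨j, hj, h7⟩ | ⟨j, hj, h7⟩)
          · exact h5 ⟨j, mem_range.1 hj, h7.symm⟩
          · exact h6 ⟨j, mem_range.1 hj, h7.symm⟩
        have h7 : s e ≠ t e := by
          intro h7
          rw [h7] at h4
          exact h4 rfl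
        have h8 := hb e he h7
        simp [h8.1, h8.2] at h4
  · rintro (rfl | rfl)
    · refine ⟨mem_univ _, ?_⟩
      have h10 : c ((i + 1) % p) ≠ c i := fun he => hnext (h.hc.cinj _ (hmod i) _ hi he)
      rcases h.hc.hf i hi with ⟨a, b⟩ | ⟨a, b⟩ <;> rw [a, b] <;> simp [h10]
    · refine ⟨mem_univ _, ?_⟩
      have h10 : c i' ≠ c i := fun he => h2 (h.hc.cinj _ h1 _ hi he)
      have h11 := h.hc.hf i' h1
      rw [h3] at h11
      rcases h11 with ⟨a, b⟩ | ⟨a, b⟩ <;> rw [a, b] <;> simp [h10]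

/-- the hypotheses of the theorem -/
structure Hyp (s t : E → V) (p q : ℕ) (c d : ℕ → V) (f g : ℕ → E) (y : E → F) : Prop where
  two : Two s t p q c d f g y
  rc : ∀ i < p, (∃ x, Sr s t p q c d i x) ∨ Bare s t (Rst p q f g) (c i)
  rd : ∀ x < q, (∃ i, Sr s t p q c d i x) ∨ Bare s t (Rst p q f g) (d x)
  tw : ∃ i x j z, Sr s t p q c d i x ∧ Sr s t p q c d j z ∧ (i ≠ j ∨ x ≠ z)
  np : NoPent (Sr s t p q c d)

theorem Hyp.swap (h : Hyp s t p q c d f g y) : Hyp s t q p d c g f y := by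
  refine ⟨h.two.swap, ?_, ?_, ?_, ?_⟩
  · intro x hx
    rw [Rst_swap]
    rcases h.rd x hx with ⟨i, hi⟩ | h1
    · exact Or.inl ⟨i, (Sr_swap _ _ _ _ _ _ _ _).2 hi⟩
    · exact Or.inr h1
  · intro x hx
    rw [Rst_swap]
    rcases h.rc x hx with ⟨i, hi⟩ | h1
    · exact Or.inl ⟨i, (Sr_swap _ _ _ _ _ _ _ _).2 hi⟩
    · exact Or.inr h1
  · obtain ⟨i, x, j, z, h1, h2, h3⟩ := h.tw
    exact ⟨x, i, z, j, (Sr_swap _ _ _ _ _ _ _ _).2 h1, (Sr_swap _ _ _ _ _ _ _ _).2 h2, h3.symm⟩
  · have := h.np.swap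
    intro r1 r2 r3 r4 r5 x1 x2 x3 x4 x5 m1 m2 m3 m4 m5
    exact this _ _ _ _ _ _ _ _ _ _ ((Sr_swap _ _ _ _ _ _ _ _).1 m1)
      ((Sr_swap _ _ _ _ _ _ _ _).1 m2) ((Sr_swap _ _ _ _ _ _ _ _).1 m3)
      ((Sr_swap _ _ _ _ _ _ _ _).1 m4) ((Sr_swap _ _ _ _ _ _ _ _).1 m5)

/-- **The flow theorem.** -/
theorem Hyp.flow (n : ℕ) : ∀ (s t : E → V) (p q : ℕ) (c d : ℕ → V) (f g : ℕ → E),
    p + q ≤ n → Hyp s t p q c d f g y → NZ s t univ := by
  induction n with
  | zero =>
    intro s t p q c d f g hn h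
    have := h.two.hc.pos
    omega
  | succ n ih =>
    -- the reduction of a row
    have key : ∀ (s t : E → V) (p q : ℕ) (c d : ℕ → V) (f g : ℕ → E),
        p + q ≤ n + 1 → Hyp s t p q c d f g y →
        ∀ i < p, Bare s t (Rst p q f g) (c i) → NZ s t univ := by
      intro s t p q c d f g hn H i hi hb
      have h := H.two
      have h0 := h.bare_sr hb
      have hp : 2 ≤ p := by
        obtain ⟨j, x, _, _, h1, _, _⟩ := H.tw
        have h2 := h1.1
        have h3 : j ≠ i := by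
          rintro rfl
          exact h0 x h1
        omega
      classical
      set κ : V → V := fun v => if v = c i then c ((i + 1) % p) else v with hκ
      have k1 : κ (c i) = c ((i + 1) % p) := by rw [hκ]; simp
      have k2 : ∀ v, v ≠ c i → κ v = v := by
        intro v hv
        rw [hκ]
        simp [hv]
      obtain ⟨i', h2, h3, h4⟩ := h.cut_eq hi hp hb
      refine con2 s t univ (mem_univ _) (h.hc.hf i hi)
        (fun he => next_ne hi hp (h.hc.cinj _ hi _ (Nat.mod_lt _ (by omega)) he).symm)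
        (fun he => h3 (h.hc.finj _ hi _ h2 he).symm) h4 κ k1 k2 ?_
      refine ih _ _ _ _ _ _ _ _ (by omega) ⟨h.red hi hp hb κ k1 k2, ?_, ?_, ?_, ?_⟩
      · intro j hj
        rcases H.rc (sk i j) (sk_lt (by omega)) with ⟨x, hx⟩ | h5
        · exact Or.inl ⟨x, h.sr_red hi hp hb κ k1 k2 (by omega) hx⟩
        · exact Or.inr (h.bare_red hi hp hb κ k1 k2 h5)
      · intro x hx
        rcases H.rd x hx with ⟨j, hj⟩ | h5
        · have h6 : j ≠ i := by
            rintro rfl
            exact h0 x hj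
          obtain ⟨k, hk, h7⟩ := sk_surj hj.1 h6 hi
          refine Or.inl ⟨k, h.sr_red hi hp hb κ k1 k2 hk ?_⟩
          rw [h7]
          exact hj
        · exact Or.inr (h.bare_red hi hp hb κ k1 k2 h5)
      · obtain ⟨a, x, b, z, m1, m2, m3⟩ := H.tw
        have n1 : a ≠ i := by
          rintro rfl
          exact h0 x m1
        have n2 : b ≠ i := by
          rintro rfl
          exact h0 z m2
        obtain ⟨a', ha, ea⟩ := sk_surj m1.1 n1 hi
        obtain ⟨b', hb', eb⟩ := sk_surj m2.1 n2 hi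
        refine ⟨a', x, b', z, h.sr_red hi hp hb κ k1 k2 ha (by rw [ea]; exact m1),
          h.sr_red hi hp hb κ k1 k2 hb' (by rw [eb]; exact m2), ?_⟩
        rcases m3 with m3 | m3
        · left
          rintro rfl
          exact m3 (ea.symm.trans eb)
        · exact Or.inr m3
      · intro r1 r2 r3 r4 r5 x1 x2 x3 x4 x5 m1 m2 m3 m4 m5 a1 a2 a3 a4
        exact H.np _ _ _ _ _ _ _ _ _ _ (h.red_sr hi hp hb κ k1 k2 m1)
          (h.red_sr hi hp hb κ k1 k2 m2) (h.red_sr hi hp hb κ k1 k2 m3)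
          (h.red_sr hi hp hb κ k1 k2 m4) (h.red_sr hi hp hb κ k1 k2 m5) (sk_mono a1) (sk_mono a2)
          (sk_mono a3) (sk_mono a4)
    intro s t p q c d f g hn H
    by_cases hr : ∀ i < p, ∃ x, Sr s t p q c d i x
    · by_cases hs : ∀ x < q, ∃ i, Sr s t p q c d i x
      · refine H.two.core hr hs ?_ H.np
        obtain ⟨a, x, b, z, m1, m2, m3⟩ := H.tw
        have h1 := m1.1
        have h2 := m1.2.1
        have h3 := m2.1
        have h4 := m2.2.1
        omega
      · have hs' : ∃ x, x < q ∧ ∀ i, ¬ Sr s t p q c d i x := by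
          by_contra hcon
          refine hs fun x hx => ?_
          by_contra hcon2
          exact hcon ⟨x, hx, fun i hi => hcon2 ⟨i, hi⟩⟩
        obtain ⟨x, hx, hs'⟩ := hs'
        refine key s t q p d c g f (by omega) H.swap x hx ?_
        rw [Rst_swap]
        rcases H.rd x hx with ⟨i, hi⟩ | h1
        · exact absurd hi (hs' i)
        · exact h1
    · have hr' : ∃ i, i < p ∧ ∀ x, ¬ Sr s t p q c d i x := by
        by_contra hcon
        refine hr fun i hi => ?_
        by_contra hcon2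
        exact hcon ⟨i, hi, fun x hx => hcon2 ⟨x, hx⟩⟩
      obtain ⟨i, hi, hr'⟩ := hr'
      refine key s t p q c d f g hn H i hi ?_
      rcases H.rc i hi with ⟨x, hx⟩ | h1
      · exact absurd hx (hr' x)
      · exact h1

end Pool.Agent.V8H16.TD
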