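import Pool.Agent.V8H16.TD.Minor

set_option autoImplicit false
set_option linter.unusedSectionVars false
set_option synthInstance.maxHeartbeats 400000
set_option synthInstance.maxSize 2048

/-!
# Contractions with as few edges as possible
-/

namespace Pool.Agent.V8H16.TD

open Finset Pool.Agent.TH362.TF Pool.Agent.TH362.TF.Four Pool.Agent.R890.FF Pool.Agent.V8H16.TC
  Pool.Agent.TH362.Multi

section lift
variable {V E : Type} {s t : E → V}

/-- all classes of `κ` are connected -/
def Fib (s t : E → V) (κ : V → V) : Prop := ∀ v, ConnectedSet s t {u | κ u = κ v}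

theorem linked_mono {X Y : Set E} (h : X ⊆ Y) {u v : V} (hl : Linked s t X u v) :
    Linked s t Y u v := by
  unfold Linked at *
  induction hl with
  | refl => exact Relation.ReflTransGen.refl
  | tail _ h2 ih =>
    obtain ⟨e, he, h3⟩ := h2
    exact Relation.ReflTransGen.tail ih ⟨e, h he, h3⟩

/-- paths of a contraction -/
theorem lift_linked {κ : V → V} (hκ : Fib s t κ) {B : Set V} {a b : V}
    (h : Linked (fun e => κ (s e)) (fun e => κ (t e)) {e | κ (s e) ∈ B ∧ κ (t e) ∈ B} a b)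
    (ha : a ∈ B) : ∀ u v, κ u = a → κ v = b →
    Linked s t {e | s e ∈ κ ⁻¹' B ∧ t e ∈ κ ⁻¹' B} u v := by
  -- inside a class
  have cls : ∀ u v, κ u = κ v → κ u ∈ B → Linked s t {e | s e ∈ κ ⁻¹' B ∧ t e ∈ κ ⁻¹' B} u v := by
    intro u v huv hu
    have h1 := (hκ v).2 u huv v rfl
    refine linked_mono ?_ h1
    rintro e ⟨h2, h3⟩
    simp only [Set.mem_ofPred_eq] at h2 h3
    refine ⟨?_, ?_⟩
    · show κ (s e) ∈ B
      rw [h2, ← huv]
      exact hu
    · show κ (t e) ∈ B
      rw [h3, ← huv]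
      exact hu
  have key : b ∈ B ∧ ∀ u v, κ u = a → κ v = b →
      Linked s t {e | s e ∈ κ ⁻¹' B ∧ t e ∈ κ ⁻¹' B} u v := by
    unfold Linked at h
    induction h with
    | refl => exact ⟨ha, fun u v hu hv => cls u v (hu.trans hv.symm) (by rw [hu]; exact ha)⟩
    | tail _ h2 ih =>
      obtain ⟨e, ⟨he1, he2⟩, h3⟩ := h2
      rcases h3 with ⟨h4, h5⟩ | ⟨h4, h5⟩
      · refine ⟨by rw [← h5]; exact he2, fun u v hu hv => ?_⟩
        have l1 := ih.2 u (s e) hu h4
        have l2 : Linked s t {e | s e ∈ κ ⁻¹' B ∧ t e ∈ κ ⁻¹' B} (s e) (t e) :=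
          Relation.ReflTransGen.tail Relation.ReflTransGen.refl
            ⟨e, ⟨he1, he2⟩, Or.inl ⟨rfl, rfl⟩⟩
        have l3 := cls (t e) v (by rw [hv]; exact h5) he2
        exact Relation.ReflTransGen.trans (Relation.ReflTransGen.trans l1 l2) l3
      · refine ⟨by rw [← h4]; exact he1, fun u v hu hv => ?_⟩
        have l1 := ih.2 u (t e) hu h5
        have l2 : Linked s t {e | s e ∈ κ ⁻¹' B ∧ t e ∈ κ ⁻¹' B} (t e) (s e) :=
          Relation.ReflTransGen.tail Relation.ReflTransGen.refl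
            ⟨e, ⟨he1, he2⟩, Or.inr ⟨rfl, rfl⟩⟩
        have l3 := cls (s e) v (by rw [hv]; exact h4) he1
        exact Relation.ReflTransGen.trans (Relation.ReflTransGen.trans l1 l2) l3
  exact key.2

/-- Petersen minors of a contraction -/
theorem lift_minor {κ : V → V} (hκ : Fib s t κ)
    (h : PMinor (fun e => κ (s e)) (fun e => κ (t e))) : PMinor s t := by
  obtain ⟨B, h1, h2, h3⟩ := h
  -- the classes which are used
  have himg : ∀ i, ∀ x ∈ B i, ∃ u, κ u = x := by
    intro i x hx
    -- there is an edge at `x` or at its set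
    by_contra hcon
    push Not at hcon
    obtain ⟨j, hj⟩ : ∃ j : {p : Finset (Fin 5) // p.card = 2}, Disjoint i.1 j.1 := by
      have : ∀ i : {p : Finset (Fin 5) // p.card = 2},
          ∃ j : {p : Finset (Fin 5) // p.card = 2}, Disjoint i.1 j.1 := by decide
      exact this i
    obtain ⟨e, he⟩ := h3 i j hj
    have h4 : ∃ y ∈ B i, ∃ u, κ u = y := by
      rcases he with ⟨a, _⟩ | ⟨_, a⟩
      · exact ⟨_, a, _, rfl⟩
      · exact ⟨_, a, _, rfl⟩
    obtain ⟨y, hy, u, hu⟩ := h4
    have h5 := (h1 i).2 y hy x hx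
    have h6 : x = y ∨ ∃ u, κ u = x := by
      unfold Linked at h5
      cases h5 with
      | refl => exact Or.inl rfl
      | tail _ h7 =>
        obtain ⟨e, _, h8⟩ := h7
        rcases h8 with ⟨_, h9⟩ | ⟨h9, _⟩
        · exact Or.inr ⟨_, h9⟩
        · exact Or.inr ⟨_, h9⟩
    rcases h6 with h6 | ⟨w, hw⟩
    · exact hcon u (hu.trans h6.symm)
    · exact hcon w hw
  refine ⟨fun i => κ ⁻¹' B i, ?_, ?_, ?_⟩
  · intro i
    refine ⟨?_, ?_⟩
    · obtain ⟨x, hx⟩ := (h1 i).1
      obtain ⟨u, hu⟩ := himg i x hx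
      exact ⟨u, by show κ u ∈ B i; rw [hu]; exact hx⟩
    · intro u hu v hv
      exact lift_linked hκ ((h1 i).2 (κ u) hu (κ v) hv) hu u v rfl rfl
  · intro i j hij
    rw [Set.disjoint_left]
    intro u hu hv
    exact Set.disjoint_left.1 (h2 i j hij) hu hv
  · intro i j hij
    obtain ⟨e, he⟩ := h3 i j hij
    exact ⟨e, he⟩

/-- isthmuses of a contraction -/
theorem lift_isthmus (κ : V → V) {e : E} (h : Isthmus (fun e => κ (s e)) (fun e => κ (t e)) e) :
    Isthmus s t e := by
  intro hl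
  apply h
  have key : ∀ u v, Linked s t {e}ᶜ u v →
      Linked (fun e => κ (s e)) (fun e => κ (t e)) {e}ᶜ (κ u) (κ v) := by
    intro u v huv
    unfold Linked at huv ⊢
    induction huv with
    | refl => exact Relation.ReflTransGen.refl
    | tail _ h2 ih =>
      obtain ⟨e', he, h3⟩ := h2
      refine Relation.ReflTransGen.tail ih ⟨e', he, ?_⟩
      rcases h3 with ⟨h4, h5⟩ | ⟨h4, h5⟩
      · exact Or.inl ⟨by simp only [h4], by simp only [h5]⟩
      · exact Or.inr ⟨by simp only [h4], by simp only [h5]⟩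
  exact key _ _ hl

/-- two classes which are joined by an edge are merged -/
theorem fib_merge [DecidableEq V] {κ : V → V} (hκ : Fib s t κ) {A : Finset V} {a : V}
    (ha : a ∈ A) (hA : ∀ x ∈ A, ∀ y ∈ A,
      Linked (fun e => κ (s e)) (fun e => κ (t e)) {e | κ (s e) ∈ A ∧ κ (t e) ∈ A} x y) :
    Fib s t (fun v => if κ v ∈ A then a else κ v) := by
  intro v
  by_cases hv : κ v ∈ A
  · -- the class is the preimage of `A`
    have h1 : {u | (if κ u ∈ A then a else κ u) = (if κ v ∈ A then a else κ v)} =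
        κ ⁻¹' (A : Set V) := by
      ext u
      simp only [Set.mem_ofPred_eq, Set.mem_preimage, Finset.mem_coe]
      rw [if_pos hv]
      by_cases hu : κ u ∈ A
      · simp [hu]
      · simp only [hu, if_false, iff_false]
        intro he
        exact hu (by rw [he]; exact ha)
    show ConnectedSet s t {u | (if κ u ∈ A then a else κ u) = (if κ v ∈ A then a else κ v)}
    rw [h1]
    refine ⟨⟨v, hv⟩, fun x hx y hy => ?_⟩
    have h2 := lift_linked (B := (A : Set V)) hκ (hA _ hx _ hy) hx x y rfl rfl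
    exact h2
  · have h1 : {u | (if κ u ∈ A then a else κ u) = (if κ v ∈ A then a else κ v)} =
        {u | κ u = κ v} := by
      ext u
      simp only [Set.mem_ofPred_eq]
      rw [if_neg hv]
      by_cases hu : κ u ∈ A
      · rw [if_pos hu]
        constructor
        · intro he
          exact absurd (he ▸ ha) hv
        · intro he
          exact absurd (he ▸ hu) hv
      · rw [if_neg hu]
    show ConnectedSet s t {u | (if κ u ∈ A then a else κ u) = (if κ v ∈ A then a else κ v)}
    rw [h1]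
    exact hκ v

end lift

variable {V E : Type} [Fintype V] [DecidableEq V] [Fintype E] [DecidableEq E]
variable {s t : E → V}

/-- no circuits with two, three or four edges -/
structure NoShort (s t : E → V) : Prop where
  s2 : ∀ a b e0 e1, a ≠ b → e0 ≠ e1 → Ends s t a b e0 → Ends s t b a e1 → False
  s3 : ∀ a b c e0 e1 e2, a ≠ b → a ≠ c → b ≠ c → Ends s t a b e0 → Ends s t b c e1 →
    Ends s t c a e2 → False
  s4 : ∀ a b c d e0 e1 e2 e3, a ≠ b → a ≠ c → a ≠ d → b ≠ c → b ≠ d → c ≠ d →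
    Ends s t a b e0 → Ends s t b c e1 → Ends s t c d e2 → Ends s t d a e3 → False

/-- the number of the edges which are not loops -/
def nl (s t : E → V) : ℕ := (univ.filter (fun e : E => s e ≠ t e)).card

theorem nl_lt {κ : V → V} {A : Finset V} {a : V} {e : E} (h1 : κ (s e) ≠ κ (t e))
    (h2 : κ (s e) ∈ A) (h3 : κ (t e) ∈ A) :
    nl (fun e => if κ (s e) ∈ A then a else κ (s e)) (fun e => if κ (t e) ∈ A then a else κ (t e)) <
      nl (fun e => κ (s e)) (fun e => κ (t e)) := by
  unfold nl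
  apply Finset.card_lt_card
  rw [Finset.ssubset_iff_of_subset]
  · refine ⟨e, mem_filter.2 ⟨mem_univ _, h1⟩, ?_⟩
    rw [mem_filter]
    rintro ⟨-, h4⟩
    apply h4
    simp [h2, h3]
  · intro e' he'
    rw [mem_filter] at he' ⊢
    refine ⟨mem_univ _, fun h4 => he'.2 ?_⟩
    simp only [h4]

theorem link1 {X : Set E} {u v : V} {e : E} (he : e ∈ X) (h : Ends s t u v e) :
    Linked s t X u v := Relation.ReflTransGen.tail Relation.ReflTransGen.refl ⟨e, he, h⟩

/-- connected sets from a root -/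
theorem conn_of_root {X : Set E} {A : Finset V} {a : V}
    (h : ∀ x ∈ A, Linked s t X a x) : ∀ x ∈ A, ∀ y ∈ A, Linked s t X x y := fun x hx y hy =>
  Relation.ReflTransGen.trans (linked_symm (h x hx)) (h y hy)

/-- **Contractions with as few edges as possible.** -/
theorem exists_min_quo (h : ¬ NZ s t univ) : ∃ κ : V → V, Fib s t κ ∧
    ¬ NZ (fun e => κ (s e)) (fun e => κ (t e)) univ ∧
    NoShort (fun e => κ (s e)) (fun e => κ (t e)) := by
  classical
  have hex : ∃ n, ∃ κ : V → V, Fib s t κ ∧ ¬ NZ (fun e => κ (s e)) (fun e => κ (t e)) univ ∧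
      nl (fun e => κ (s e)) (fun e => κ (t e)) = n := by
    refine ⟨_, fun v => v, ?_, h, rfl⟩
    intro v
    refine ⟨⟨v, rfl⟩, ?_⟩
    intro x hx y hy
    simp only [Set.mem_ofPred_eq] at hx hy
    rw [hx, hy]
    exact Relation.ReflTransGen.refl
  obtain ⟨κ, h1, h2, h3⟩ := Nat.find_spec hex
  have hmin : ∀ κ' : V → V, Fib s t κ' →
      nl (fun e => κ' (s e)) (fun e => κ' (t e)) < nl (fun e => κ (s e)) (fun e => κ (t e)) →
      NZ (fun e => κ' (s e)) (fun e => κ' (t e)) univ := by
    intro κ' h4 h5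
    by_contra h6
    exact Nat.find_min hex (m := nl (fun e => κ' (s e)) (fun e => κ' (t e))) (by omega)
      ⟨κ', h4, h6, rfl⟩
  -- the merged graph
  have hm : ∀ (A : Finset V) (a b : V) (e0 : E), a ∈ A → b ∈ A → a ≠ b →
      Ends (fun e => κ (s e)) (fun e => κ (t e)) a b e0 →
      (∀ x ∈ A, Linked (fun e => κ (s e)) (fun e => κ (t e)) {e | κ (s e) ∈ A ∧ κ (t e) ∈ A} a x) →
      NZ (fun e => if κ (s e) ∈ A then a else κ (s e))
        (fun e => if κ (t e) ∈ A then a else κ (t e)) univ := by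
    intro A a b e0 ha hb hab he hA
    refine hmin (fun v => if κ v ∈ A then a else κ v) (fib_merge h1 ha (conn_of_root hA)) ?_
    refine nl_lt (e := e0) ?_ ?_ ?_
    · rcases he with ⟨h4, h5⟩ | ⟨h4, h5⟩
      · simp only at h4 h5
        rw [h4, h5]
        exact hab
      · simp only at h4 h5
        rw [h4, h5]
        exact hab.symm
    · rcases he with ⟨h4, h5⟩ | ⟨h4, h5⟩
      · simp only at h4
        rw [h4]
        exact ha
      · simp only at h4
        rw [h4]
        exact hb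
    · rcases he with ⟨h4, h5⟩ | ⟨h4, h5⟩
      · simp only at h5
        rw [h5]
        exact hb
      · simp only at h5
        rw [h5]
        exact ha
  have hin : ∀ (A : Finset V) (x y : V) (e : E), x ∈ A → y ∈ A →
      Ends (fun e => κ (s e)) (fun e => κ (t e)) x y e → e ∈ {e | κ (s e) ∈ A ∧ κ (t e) ∈ A} := by
    intro A x y e hx hy he
    rcases he with ⟨h4, h5⟩ | ⟨h4, h5⟩
    · simp only at h4 h5
      exact ⟨by rw [h4]; exact hx, by rw [h5]; exact hy⟩
    · simp only at h4 h5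
      exact ⟨by rw [h4]; exact hy, by rw [h5]; exact hx⟩
  refine ⟨κ, h1, h2, ?_, ?_, ?_⟩
  · intro a b e0 e1 hab hne E0 E1
    refine h2 (con_two _ _ univ (mem_univ _) (mem_univ _) hne E0 E1 hab
      (hm {a, b} a b e0 (by simp) (by simp) hab E0 ?_))
    intro x hx
    simp only [mem_insert, mem_singleton] at hx
    rcases hx with rfl | rfl
    · exact Relation.ReflTransGen.refl
    · exact link1 (hin _ _ _ _ (by simp) (by simp) E0) E0
  · intro a b c e0 e1 e2 hab hac hbc E0 E1 E2
    refine h2 (con_three _ _ univ (mem_univ _) (mem_univ _) (mem_univ _) E0 E1 E2 hab hac hbc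
      (hm {a, b, c} a b e0 (by simp) (by simp) hab E0 ?_))
    intro x hx
    simp only [mem_insert, mem_singleton] at hx
    rcases hx with rfl | rfl | rfl
    · exact Relation.ReflTransGen.refl
    · exact link1 (hin _ _ _ _ (by simp) (by simp) E0) E0
    · exact link1 (hin _ _ _ _ (by simp) (by simp) E2.symm) E2.symm
  · intro a b c d e0 e1 e2 e3 hab hac had hbc hbd hcd E0 E1 E2 E3
    refine h2 (con_four _ _ univ (mem_univ _) (mem_univ _) (mem_univ _) (mem_univ _) E0 E1 E2 E3
      hab hac had hbc hbd hcd (hm {a, b, c, d} a b e0 (by simp) (by simp) hab E0 ?_))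
    intro x hx
    simp only [mem_insert, mem_singleton] at hx
    rcases hx with rfl | rfl | rfl | rfl
    · exact Relation.ReflTransGen.refl
    · exact link1 (hin _ _ _ _ (by simp) (by simp) E0) E0
    · exact Relation.ReflTransGen.trans (link1 (hin _ _ _ _ (by simp) (by simp) E0) E0)
        (link1 (hin _ _ _ _ (by simp) (by simp) E1) E1)
    · exact link1 (hin _ _ _ _ (by simp) (by simp) E3.symm) E3.symm

/-- a close pair of edges between two disjoint circuits gives a short circuit -/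
theorem NoShort.far (hn : NoShort s t) {p q : ℕ} {c d : ℕ → V} {f g : ℕ → E}
    (hc : Circ s t p c f) (hd : Circ s t q d g) (dis : ∀ i < p, ∀ j < q, c i ≠ d j)
    {i j x z : ℕ} {e1 e2 : E} (hi : i < p) (hj : j < p)
    (hx : x < q) (hz : z < q) (E1 : Ends s t (c i) (d x) e1) (E2 : Ends s t (c j) (d z) e2)
    (hne : i ≠ j ∨ x ≠ z) (hdd : nd i j + nd x z ≤ 2 ∨ (p - nd i j) + nd x z ≤ 2 ∨
      nd i j + (q - nd x z) ≤ 2 ∨ (p - nd i j) + (q - nd x z) ≤ 2) : False := by
  have one : ∀ {p q : ℕ} {c d : ℕ → V} {f g : ℕ → E}, Circ s t p c f → Circ s t q d g →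
      (∀ i < p, ∀ j < q, c i ≠ d j) → ∀ {i x z : ℕ} {e1 e2 : E}, i < p → x < q → z < q →
      Ends s t (c i) (d x) e1 → Ends s t (c i) (d z) e2 → x ≠ z →
      (nd x z ≤ 2 ∨ q ≤ nd x z + 2) → False := by
    intro p q c d f g hc hd dis i x z e1 e2 hi hx hz E1 E2 hxz hdd
    have n1 := dis i hi x hx
    have n2 := dis i hi z hz
    have n3 : d x ≠ d z := fun he => hxz (hd.cinj _ hx _ hz he)
    by_cases h1 : nd x z = 1 ∨ nd x z + 1 = q
    · obtain ⟨e, he⟩ := hd.adj hx hz hxz h1
      exact hn.s3 _ _ _ _ _ _ n1 n2 n3 E1 he E2.symm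
    · have hn0 : 1 ≤ nd x z ∧ nd x z + 1 ≤ q := by
        unfold nd
        omega
      obtain ⟨m, m1, m2, m3, ⟨e, he⟩, ⟨e', he'⟩⟩ := hd.two hx hz hxz (by omega)
      exact hn.s4 _ _ _ _ _ _ _ _ n1 (dis i hi m m1) n2
        (fun he => m2 (hd.cinj _ hx _ m1 he).symm) n3 (fun he => m3 (hd.cinj _ m1 _ hz he))
        E1 he he' E2.symm
  by_cases h1 : i = j
  · subst h1
    have h2 : x ≠ z := by
      rcases hne with h | h
      · exact absurd rfl h
      · exact h
    refine one hc hd dis hi hx hz E1 E2 h2 ?_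
    have : nd i i = 0 := by unfold nd; omega
    omega
  · by_cases h2 : x = z
    · subst h2
      refine one hd hc (fun i hi j hj he => dis j hj i hi he.symm) hx hi hj E1.symm E2.symm h1 ?_
      have : nd x x = 0 := by unfold nd; omega
      omega
    · have h3 : 1 ≤ nd x z ∧ nd x z + 1 ≤ q := by
        unfold nd
        omega
      have h4 : 1 ≤ nd i j ∧ nd i j + 1 ≤ p := by
        unfold nd
        omega
      obtain ⟨e, he⟩ := hc.adj hi hj h1 (by omega)
      obtain ⟨e', he'⟩ := hd.adj hz hx (Ne.symm h2) (by unfold nd at *; omega)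
      exact hn.s4 _ _ _ _ _ _ _ _ (fun he => h1 (hc.cinj _ hi _ hj he)) (dis _ hi _ hz)
        (dis _ hi _ hx) (dis _ hj _ hz) (dis _ hj _ hx)
        (fun he => h2 (hd.cinj _ hz _ hx he).symm) he E2 he' E1.symm

/-- **Completely adjacent disjoint circuits give a Petersen minor.** -/
theorem NoShort.pminor (hn : NoShort s t) {p q : ℕ} {c d : ℕ → V} {f g : ℕ → E}
    (hc : Circ s t p c f) (hd : Circ s t q d g) (dis : ∀ i < p, ∀ j < q, c i ≠ d j)
    (hpq : 2 ≤ p ∨ 2 ≤ q) (hC : ∀ i < p, ∃ j < q, ∃ e, Ends s t (c i) (d j) e)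
    (hD : ∀ j < q, ∃ i < p, ∃ e, Ends s t (c i) (d j) e) : PMinor s t := by
  by_contra hP
  have np : NoPent (Sr s t p q c d) := by
    by_contra hpent
    exact hP (pent hc hd dis hpent)
  obtain ⟨i, x, j, z, ⟨h1, h2, e1, h3⟩, ⟨h4, h5, e2, h6⟩, h7, h8⟩ :=
    comb hc.pos hd.pos hpq (S := Sr s t p q c d) (fun i x hx => ⟨hx.1, hx.2.1⟩)
      (fun i hi => by
        obtain ⟨j, hj, e, he⟩ := hC i hi
        exact ⟨j, hi, hj, e, he⟩)
      (fun j hj => by
        obtain ⟨i, hi, e, he⟩ := hD j hj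
        exact ⟨i, hi, hj, e, he⟩) np
  exact hn.far hc hd dis h1 h4 h2 h5 h3 h6 h7 h8

end Pool.Agent.V8H16.TD
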